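import Pool.Agent.helper36.HK.Spec

set_option autoImplicit false

open Finset
open Pool.Agent.FI

namespace Pool.Agent.HK

private theorem WCH_sin (θ : ℝ) (h1 : Real.pi / 6 ≤ θ) (h2 : θ ≤ 5 * Real.pi / 6) : 1 / 2 ≤ Real.sin θ := by
  have hpi := Real.pi_pos
  rw [← Real.sin_pi_div_six]
  rcases le_total θ (Real.pi / 2) with h | h
  · exact Real.sin_le_sin_of_le_of_le_pi_div_two (by linarith) h h1
  · rw [← Real.sin_pi_sub θ]
    exact Real.sin_le_sin_of_le_of_le_pi_div_two (by linarith) (by linarith) (by linarith)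

theorem WCH : WCH_stmt := by
  intro d hd κ hκ
  set K : ℝ := |κ| with hK
  set s : ℝ := √8 with hs
  have hs2 : s ^ 2 = 8 := Real.sq_sqrt (by norm_num)
  have hs0 : 0 ≤ s := Real.sqrt_nonneg 8
  have hs1 : 2.8 < s := by nlinarith
  have hs3 : s < 2.83 := by nlinarith
  have hp1 := Real.pi_gt_d2
  have hp2 := Real.pi_lt_d2
  have hK0 : 0 < K := by linarith
  have hsK : 0 < s * K := by nlinarith
  have hsK1 : 4.2 ≤ s * K := by nlinarith
  have hd1 : (1 : ℝ) ≤ d := by exact_mod_cast hd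
  set A : ℝ := s * K * 16 / (3 * Real.pi) with hA
  set t : ℤ := ⌈A⌉ with ht
  have ht1 : A ≤ (t : ℝ) := Int.le_ceil A
  have ht2 : (t : ℝ) < A + 1 := Int.ceil_lt_add_one A
  set r : ℝ := (t : ℝ) + 1 / (2 * d) with hr
  have hd2 : 0 < 1 / (2 * (d : ℝ)) := by positivity
  have hd3 : 1 / (2 * (d : ℝ)) ≤ 1 / 2 := by
    apply one_div_le_one_div_of_le
    · norm_num
    · linarith
  have hrA : A ≤ r := by linarith
  have hrB : r ≤ A + 3 / 2 := by linarith
  have h3A : 3 * Real.pi * A = 16 * (s * K) := by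
    rw [hA]
    field_simp
  have hr1 : 16 * (s * K) ≤ 3 * Real.pi * r := by
    rw [← h3A]
    exact mul_le_mul_of_nonneg_left hrA (by positivity)
  have hr2 : Real.pi * r ≤ 8 * (s * K) := by
    have h1 : 3 * Real.pi * r ≤ 3 * Real.pi * (A + 3 / 2) := mul_le_mul_of_nonneg_left hrB (by positivity)
    have h2 : 3 * Real.pi * (A + 3 / 2) = 16 * (s * K) + 3 * Real.pi * (3 / 2) := by
      rw [mul_add, h3A]
    nlinarith
  have hr0 : 7 ≤ r := by nlinarith
  have hrs : 0 < r - s := by linarith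
  have hrs' : 0 < r + s := by linarith
  refine ⟨(1 + 2 * (d : ℤ) * t, 2 * (d : ℤ)), ?_, ?_, ?_, ?_⟩
  · refine ⟨t, ?_⟩
    push_cast
    ring
  · refine ⟨1, ?_⟩
    push_cast
    ring
  · have ha : ((1 + 2 * (d : ℤ) * t : ℤ) : ℝ) = 2 * d * r := by
      rw [hr]
      push_cast
      field_simp
      ring
    have h1 : (nn (1 + 2 * (d : ℤ) * t, 2 * (d : ℤ)) : ℝ) = |((1 + 2 * (d : ℤ) * t : ℤ) : ℝ) ^ 2 - 8 * (2 * (d : ℝ)) ^ 2| := by
      rw [nn, Nat.cast_natAbs, N8]
      push_cast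
      rfl
    rw [h1, ha]
    have h2 : (2 * (d : ℝ) * r) ^ 2 - 8 * (2 * (d : ℝ)) ^ 2 = 4 * (d : ℝ) ^ 2 * (r ^ 2 - 8) := by ring
    rw [h2, abs_of_nonneg (by
      have : 0 ≤ r ^ 2 - 8 := by nlinarith
      positivity)]
    have h3 : 3.14 * r ≤ 8 * (s * K) := by nlinarith
    have h4 : (3.14 * r) ^ 2 ≤ (8 * (s * K)) ^ 2 := pow_le_pow_left₀ (by linarith) h3 2
    have h5 : (8 * (s * K)) ^ 2 = 512 * K ^ 2 := by
      rw [mul_pow, mul_pow, hs2]
      ring
    rw [h5] at h4
    have h6 : r ^ 2 ≤ 52 * K ^ 2 := by nlinarith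
    have h7 : (0 : ℝ) ≤ (d : ℝ) ^ 2 := by positivity
    calc 4 * (d : ℝ) ^ 2 * (r ^ 2 - 8) ≤ 4 * (d : ℝ) ^ 2 * (52 * K ^ 2) :=
          mul_le_mul_of_nonneg_left (by linarith) (by positivity)
      _ ≤ 300 * ((d : ℝ) ^ 2 * (1 + K) ^ 2) := by
          have h8 : K ^ 2 ≤ (1 + K) ^ 2 := by nlinarith
          have h9 : (d : ℝ) ^ 2 * K ^ 2 ≤ (d : ℝ) ^ 2 * (1 + K) ^ 2 := mul_le_mul_of_nonneg_left h8 h7
          have h10 : 0 ≤ (d : ℝ) ^ 2 * K ^ 2 := by positivity
          linarith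
      _ = 300 * ((d : ℝ) * (1 + K)) ^ 2 := by ring
  · have hyy : yy (1 + 2 * (d : ℤ) * t, 2 * (d : ℤ)) = Real.log ((r + s) / (r - s)) := by
      rw [yy]
      have ha : ((1 + 2 * (d : ℤ) * t : ℤ) : ℝ) = 2 * d * r := by
        rw [hr]
        push_cast
        field_simp
        ring
      have hb : ((2 * (d : ℤ) : ℤ) : ℝ) = 2 * d := by push_cast; ring
      dsimp only
      rw [ha, hb, ← hs]
      have h1 : 2 * (d : ℝ) * r + 2 * d * s = 2 * d * (r + s) := by ring
      have h2 : 2 * (d : ℝ) * r - 2 * d * s = 2 * d * (r - s) := by ring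
      rw [h1, h2, abs_of_pos (by positivity), abs_of_pos (by positivity)]
      congr 1
      exact mul_div_mul_left _ _ (by positivity)
    rw [hyy]
    set Y : ℝ := Real.log ((r + s) / (r - s)) with hY
    have hy1 : Y ≤ 2 * s / (r - s) := by
      refine (Real.log_le_sub_one_of_pos (by positivity)).trans (le_of_eq ?_)
      field_simp
      ring
    have hy2 : 2 * s / (r + s) ≤ Y := by
      have h1 := Real.log_le_sub_one_of_pos (x := (r - s) / (r + s)) (by positivity)
      have h2 : Real.log ((r - s) / (r + s)) = -Y := by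
        rw [hY, ← Real.log_inv, inv_div]
      rw [h2] at h1
      have h3 : 1 - (r - s) / (r + s) = 2 * s / (r + s) := by
        field_simp
        ring
      linarith
    have hsin : 1 / 2 ≤ Real.sin (K * Y) := by
      apply WCH_sin
      · have h1 : Real.pi / 6 ≤ K * (2 * s / (r + s)) := by
          rw [← mul_div_assoc, div_le_div_iff₀ (by norm_num) hrs']
          have h2 : Real.pi * s ≤ 2.1 * (s * K) := by nlinarith
          nlinarith
        exact h1.trans (mul_le_mul_of_nonneg_left hy2 hK0.le)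
      · have h1 : K * (2 * s / (r - s)) ≤ 5 * Real.pi / 6 := by
          rw [← mul_div_assoc, div_le_div_iff₀ hrs (by norm_num)]
          have h2 : Real.pi * s ≤ 2.1 * (s * K) := by nlinarith
          nlinarith
        exact (mul_le_mul_of_nonneg_left hy1 hK0.le).trans h1
    rcases abs_cases κ with ⟨h1, _⟩ | ⟨h1, _⟩
    · have h2 : κ = K := by rw [hK, h1]
      rw [h2]
      exact hsin.trans (le_abs_self _)
    · have h2 : κ = -K := by rw [hK, h1, neg_neg]
      rw [h2, neg_mul, Real.sin_neg, abs_neg]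
      exact hsin.trans (le_abs_self _)

end Pool.Agent.HK
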